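import Pool.Agent.R936.Sm.Defs

/-!
# Full faithfulness of the Hodge realization: definitions
-/

universe u

namespace Pool.Agent.R936.Sm

open H914 H914.VarClass H914.VarClass.Obj H914.WeilCohomology Y121.AHS

variable {k : Type u} [Field k] {𝒱 : VarClass k} {ops : CycleOps 𝒱}

/-- All Hodge classes on `Y` are absolutely Hodge. -/
def AllAbs {T : HodgeTheory ops} (D : Conjugates T) (Y : 𝒱.Obj) : Prop :=
  ∀ (j : ℕ) (c : T.W.H Y), IsHodge T Y j c → IsAbsHodge D Y j c

/-- The images `d = γ ∘ c` of the Hodge classes `c` on `Z × P` are absolutely Hodge. If `γ` is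
idempotent these are the Hodge classes of `H(M) ⊗ H(P)`, where `M = (Z, γ)`, so this says that the
Hodge realization is full on the groups `Hom(1(r), M ⊗ h(P))`. -/
def FullOn {T : HodgeTheory ops} (D : Conjugates T) {Z : 𝒱.Obj} (γ : T.W.H (Z.prod Z))
    (P : 𝒱.Obj) : Prop :=
  ∀ (j : ℕ) (c d : T.W.H (Z.prod P)), IsHodge T (Z.prod P) j c →
    emL T.W ℂ d = comp γ (emL T.W ℂ c) → IsAbsHodge D (Z.prod P) j d

end Pool.Agent.R936.Sm
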