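import Pool.Agent.R936.Sm.Conv
import Pool.Agent.R936.Sm.FullDefs

/-!
# Full faithfulness of the Hodge realization for products with motives of CM type
-/

set_option linter.unusedVariables false
set_option linter.unusedSectionVars false

open CategoryTheory AlgebraicGeometry TensorProduct

universe u v w

namespace Pool.Agent.R936.Sm

open Pool.Agent.H914 Pool.Agent.W534 VarClass Obj WeilCohomology Module
open Pool.Agent
open Pool.Agent.Y121 Pool.Agent.Y121.AHS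
open Pool.Agent.H281R3.HT
open Pool.Agent.R936
open Pool.Agent.R936.Arb
open Pool.Agent.R936.Hel2 (HodgeGroupDimLe)
open Pool.Agent.R936.Vh (gL gL_em gL_ind act contr_act act_gL)

variable {k : Type u} [Field k] {𝒱 : VarClass k} {ops : CycleOps 𝒱} {I : Type w} {X : I → 𝒱.Obj}
variable {T : AHS.HodgeTheory ops}

lemma comp_eq {Z P : 𝒱.Obj} (γ : T.W.H (Z.prod Z)) (c : HL T.W ℂ (Z.prod P)) :
    (show (baseW T.W ℂ).H (Z.prod P) from Sm.comp γ c) =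
      contr (W := baseW T.W ℂ) (AH.em T.W ℂ γ) (show (baseW T.W ℂ).H (Z.prod P) from c) := by
  have e1 : (baseW T.W ℂ).map (Sm.toZZ Z P) (AH.em T.W ℂ γ) =
    (show (baseW T.W ℂ).H (Z.prod (Z.prod P)) from mapL (Sm.toZZ Z P) (emL T.W ℂ γ)) :=
      map_eq T.W ℂ (Sm.toZZ Z P) (emL T.W ℂ γ)
  have e2 : (baseW T.W ℂ).map (Sm.toZP Z P) (show (baseW T.W ℂ).H (Z.prod P) from c) =
    (show (baseW T.W ℂ).H (Z.prod (Z.prod P)) from mapL (Sm.toZP Z P) c) :=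
      map_eq T.W ℂ (Sm.toZP Z P) c
  have h : contr (W := baseW T.W ℂ) (AH.em T.W ℂ γ) (show (baseW T.W ℂ).H (Z.prod P) from c) =
      (baseW T.W ℂ).push (snd Z (Z.prod P))
        ((baseW T.W ℂ).map (Sm.toZZ Z P) (AH.em T.W ℂ γ) *
          (baseW T.W ℂ).map (Sm.toZP Z P) (show (baseW T.W ℂ).H (Z.prod P) from c)) := rfl
  rw [h, e1, e2]
  rfl

lemma comp_em {Z P : 𝒱.Obj} (γ : T.W.H (Z.prod Z)) (c : T.W.H (Z.prod P)) :
    Sm.comp γ (emL T.W ℂ c) = emL T.W ℂ (contr γ c) :=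
  (comp_eq γ (emL T.W ℂ c)).trans (Nc.em_contr (T := toH T) (L := ℂ) γ c).symm

lemma level_aux {T : AH.HodgeTheory ops} {Z : 𝒱.Obj} (γ : T.W.H (Z.prod Z))
    {x : (baseW T.W ℂ).H Z}
    (h : contr (W := baseW T.W ℂ) (AH.em T.W ℂ γ) ((baseW T.W ℂ).map (fst Z Z) x) = 0) :
    gL ℂ (act γ) x = 0 := by
  by_cases h1 : (1 : (baseW T.W ℂ).H Z) = 0
  · rw [← mul_one (gL ℂ (act γ) x), h1, mul_zero]
  · have h2 : (baseW T.W ℂ).map (fst Z Z) x = zw x (1 : (baseW T.W ℂ).H Z) := by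
      rw [zw, map_one, mul_one]
    rw [h2, contr_act] at h
    have h3 : act (W := baseW T.W ℂ) (AH.em T.W ℂ γ) x = gL ℂ (act γ) x := act_gL γ x
    rw [h3] at h
    by_contra hne
    exact zw_ne hne h1 h

lemma level_of {Z : 𝒱.Obj} {γ : T.W.H (Z.prod Z)} {ℓ : ℕ} (h : Sm.LevelLe γ ℓ) (p q : ℤ)
    (x : (baseW (toH T).W ℂ).H Z) (hx : x ∈ (toH T).pq Z p q) (hpq : (ℓ : ℤ) < |p - q|) :
    gL (T := toH T) ℂ (act (W := (toH T).W) γ) x = 0 := by
  refine level_aux (T := toH T) γ ?_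
  have h1 := h Z p q x hx hpq
  have h2 : (baseW T.W ℂ).map (fst Z Z) x =
    (show (baseW T.W ℂ).H (Z.prod Z) from mapL (fst Z Z) (show HL T.W ℂ Z from x)) :=
      map_eq T.W ℂ (fst Z Z) (show HL T.W ℂ Z from x)
  have h3 := comp_eq γ (mapL (fst Z Z) (show HL T.W ℂ Z from x))
  refine Eq.trans ?_ h1
  refine Eq.trans ?_ h3.symm
  exact congrArg _ h2

lemma full_iff {D : Conjugates T} {Z : 𝒱.Obj} (γ : T.W.H (Z.prod Z)) (P : 𝒱.Obj) :
    Sm.FullOn D γ P ↔ Mot.FullOn D γ P := by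
  have h0 : ∀ c : T.W.H (Z.prod P), Mot.comp γ c = contr γ c := fun c => rfl
  constructor
  · intro h j c hc
    rw [h0]
    exact h j c _ hc (comp_em γ c).symm
  · intro h j c d hc hd
    have h1 := h j c hc
    rw [h0] at h1
    rw [comp_em] at hd
    have h2 : AH.em T.W ℂ (d - contr γ c) = 0 := by
      have h3 : AH.em T.W ℂ (d - contr γ c) = AH.em T.W ℂ d - AH.em T.W ℂ (contr γ c) :=
        TensorProduct.tmul_sub _ _ _
      rw [h3]
      exact sub_eq_zero.2 hd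
    have h3 := AH.em_injective (W := T.W) (L := ℂ) h2
    rw [sub_eq_zero.1 h3]
    exact h1

lemma full_main' [Nonempty I] (D : Conjugates T) (hpos : Sm.NonnegTypes T)
    (hX : ∀ i, Sm.IsCM T (X i)) {R : ℕ} (hR : HodgeGroupDimLe T X R) (F : I → List I → 𝒱.Obj)
    (hF : F = Hel2.prodOf X)
    (h : ∀ i L, (∃ F : Finset I, F.card ≤ R + 1 ∧ ∀ j ∈ i :: L, j ∈ F) → Sm.AllAbs D (F i L)) :
    ∃ (i0 : I) (L0 : List I), ∀ (ℓ : ℕ) (Z : 𝒱.Obj) (γ : T.W.H (Z.prod Z)),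
      IsAbsHodge D (Z.prod Z) Z.dim γ → Sm.LevelLe γ ℓ →
        (Sm.FullOn D γ (F i0 (L0 ++ (List.replicate (ℓ - 1) (i0 :: L0)).flatten)) ↔
          ∀ i L, Sm.FullOn D γ (F i L)) := by
  subst hF
  obtain ⟨i0, L0, h1⟩ := Mot.exists_full D hpos (fun i => isCM_of (hX i)) hR h
  refine ⟨i0, L0, fun ℓ Z γ hγ hlev => ?_⟩
  have h2 := h1 ℓ Z γ hγ.1.1 (fun p q x hx hpq => level_of hlev p q x hx hpq)
  simp only [full_iff]
  exact h2

/-- **Full faithfulness of the Hodge realization for products with motives of CM type.** -/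
theorem full_main [Nonempty I] (D : Conjugates T) (hpos : Sm.NonnegTypes T)
    (hX : ∀ i, Sm.IsCM T (X i)) {R : ℕ} (hR : Sm.HgDimLe T X R)
    (h : ∀ i L, (∃ F : Finset I, F.card ≤ R + 1 ∧ ∀ j ∈ i :: L, j ∈ F) →
      Sm.AllAbs D (Sm.prodOf X i L)) :
    ∃ (i0 : I) (L0 : List I), ∀ (ℓ : ℕ) (Z : 𝒱.Obj) (γ : T.W.H (Z.prod Z)),
      IsAbsHodge D (Z.prod Z) Z.dim γ → Sm.LevelLe γ ℓ →
        (Sm.FullOn D γ (Sm.powerOf X i0 L0 ℓ) ↔ ∀ i L, Sm.FullOn D γ (Sm.prodOf X i L)) :=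
  full_main' D hpos hX (show HodgeGroupDimLe T X R from hR) (Sm.prodOf X)
    (funext fun i => funext fun L => prodOf_eq X i L) h

end Pool.Agent.R936.Sm
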