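import Pool.Agent.R936.Sm.Defs
import Pool.Agent.R936.Mot.Fin
import Mathlib.LinearAlgebra.Charpoly.BaseChange

/-!
# Comparison of the definitions
-/

set_option linter.unusedVariables false
set_option linter.unusedSectionVars false

open CategoryTheory AlgebraicGeometry TensorProduct

universe u v w

namespace Pool.Agent.R936.Sm

section Alg

open Polynomial

variable {K : Type} [Field K] {V : Type} [AddCommGroup V] [Module K V] [Module.Finite K V]
  {L : Type} [Field L] [Algebra K L]

lemma squarefree_of_basis (f : Module.End K V) {n : ℕ} (b : Module.Basis (Fin n) L (L ⊗[K] V))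
    {μ : Fin n → L} (hμ : Function.Injective μ) (h : ∀ i, f.baseChange L (b i) = μ i • b i) :
    Squarefree (LinearMap.charpoly f) := by
  have h1 : LinearMap.toMatrix b b (f.baseChange L) = Matrix.diagonal μ := by
    ext i j
    rw [LinearMap.toMatrix_apply, h, map_smul, b.repr_self, Finsupp.smul_single, smul_eq_mul,
      mul_one]
    by_cases hij : i = j
    · subst hij
      rw [Finsupp.single_eq_same, Matrix.diagonal_apply_eq]
    · rw [Finsupp.single_eq_of_ne (by exact fun h => hij h), Matrix.diagonal_apply_ne _ hij]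
  have h2 : (f.charpoly.map (algebraMap K L)).Separable := by
    rw [← LinearMap.charpoly_baseChange, ← LinearMap.charpoly_toMatrix _ b, h1,
      Matrix.charpoly_diagonal]
    exact separable_prod_X_sub_C_iff.2 hμ
  exact ((separable_map _).1 h2).squarefree

end Alg

open Pool.Agent.H914 Pool.Agent.W534 VarClass Obj WeilCohomology Module
open Pool.Agent
open Pool.Agent.Y121 Pool.Agent.Y121.AHS
open Pool.Agent.H281R3.HT
open Pool.Agent.R940 (SG em_SG mem_of_SG)
open Pool.Agent.R936
open Pool.Agent.R936.Vh (gL gL_em gL_ind)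

variable {k : Type u} [Field k] {𝒱 : VarClass k} {ops : CycleOps 𝒱} {I : Type w} {X : I → 𝒱.Obj}
variable {T : AHS.HodgeTheory ops}

/-- An endomorphism which preserves the types preserves the degrees. -/
lemma respDeg {T : AH.HodgeTheory ops} {Y : 𝒱.Obj} (f : T.W.H Y →ₗ[T.W.K] T.W.H Y)
    (h : ∀ (p q : ℤ) (x : (baseW T.W ℂ).H Y), x ∈ T.pq Y p q → gL ℂ f x ∈ T.pq Y p q) {i : ℕ}
    {x : T.W.H Y} (hx : x ∈ T.W.gr Y i) : f x ∈ T.W.gr Y i := by
  refine mem_of_SG (L := ℂ) ?_
  rw [← gL_em]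
  have h1 := T.dec.span hx
  have h2 : (⨆ r : {r : ℤ × ℤ // r.1 + r.2 = i}, T.pq Y r.1.1 r.1.2) ≤
      (SG ℂ (T.W.gr Y i)).comap (gL ℂ f) := by
    refine iSup_le fun r => ?_
    intro y hy
    exact T.dec.le Y r.2 (h _ _ y hy)
  exact h2 h1

lemma isCM_of {Y : 𝒱.Obj} (h : Sm.IsCM T Y) : R940.IsCM T Y := by
  obtain ⟨f, n, b, μ, hf, hμ, hb⟩ := h
  refine ⟨f, ?_, ?_, hf⟩
  · have hfin : Module.Finite T.W.K (T.W.H Y) := T.W.finite Y
    exact squarefree_of_basis (K := T.W.K) (V := T.W.H Y) (L := ℂ) f b hμ hb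
  · intro i x hx
    exact respDeg (T := toH T) (Y := Y) f (fun p q x hx => hf p q x hx) hx

lemma prodOf_eq (X : I → 𝒱.Obj) : ∀ (i : I) (L : List I), Sm.prodOf X i L = Hel2.prodOf X i L
  | i, [] => rfl
  | i, j :: L => by
    rw [Sm.prodOf, Hel2.prodOf, prodOf_eq X j L]

end Pool.Agent.R936.Sm
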