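import Pool.Agent.Y121.AHS.Defs

/-!
# Families of varieties of CM type and correspondences: definitions
-/

universe u w

namespace Pool.Agent.R936.Sm

open CategoryTheory H914 H914.VarClass H914.VarClass.Obj H914.WeilCohomology Y121.AHS

variable {k : Type u} [Field k] {𝒱 : VarClass k} {ops : CycleOps 𝒱} {I : Type w}

/-- The spaces `H^(p,q)(X)` with `p < 0` or `q < 0` vanish, for all `X`. -/
def NonnegTypes (T : HodgeTheory ops) : Prop :=
  ∀ (X : 𝒱.Obj) (p q : ℤ), p < 0 ∨ q < 0 → T.pq X p q = ⊥

/-- The linear endomorphisms of the cohomology `H(X)`, the sum of the `H^i(X)`, with rational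
coefficients. -/
def EndH (T : HodgeTheory ops) (X : 𝒱.Obj) : Type := Module.End T.W.K (T.W.H X)

/-- The endomorphism applied to a class with complex coefficients. -/
noncomputable def endC {T : HodgeTheory ops} {X : 𝒱.Obj} (f : EndH T X) (x : HL T.W ℂ X) :
    HL T.W ℂ X :=
  extMap T.W.K ℂ (A := T.W.H X) (B := T.W.H X) f x

/-- The endomorphism maps classes of type `(p, q)` to classes of type `(p, q)`. -/
def RespTypes {T : HodgeTheory ops} {X : 𝒱.Obj} (f : EndH T X) : Prop :=
  ∀ (p q : ℤ) (x : HL T.W ℂ X), IsType T.pq p q x → IsType T.pq p q (endC f x)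

/-- The Hodge structure `H(X)`, the sum of the `H^i(X)`, is of CM type: it has an endomorphism `f` (a
rational endomorphism which preserves the spaces `H^(p,q)(X)`) such that the cohomology with complex
coefficients has a basis of eigenvectors of `f` with different eigenvalues. Equivalently, the
Mumford-Tate group is commutative. -/
def IsCM (T : HodgeTheory ops) (X : 𝒱.Obj) : Prop :=
  ∃ (f : EndH T X) (n : ℕ) (b : Module.Basis (Fin n) ℂ (HL T.W ℂ X)) (μ : Fin n → ℂ),
    RespTypes f ∧ Function.Injective μ ∧ ∀ i, endC f (b i) = smL (μ i) (b i)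

/-- The product `X i × X j₁ × ⋯ × X jₘ` of members of the family `X`, where `L = [j₁, ..., jₘ]`. -/
noncomputable def prodOf (X : I → 𝒱.Obj) : I → List I → 𝒱.Obj
  | i, [] => X i
  | i, j :: L => (X i).prod (prodOf X j L)

/-- The power `Y ^ n` of the product `Y = X i × X j₁ × ⋯ × X jₘ`, where `L = [j₁, ..., jₘ]` (and `Y`
for `n = 0`), written as a product of members of the family. -/
noncomputable def powerOf (X : I → 𝒱.Obj) (i : I) (L : List I) (n : ℕ) : 𝒱.Obj :=
  prodOf X i (L ++ (List.replicate (n - 1) (i :: L)).flatten)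

/-- There are `R` rational endomorphisms `E j` of the sum of the cohomology groups of the members of
the family `X`, which map the cohomology of each member `X i` to itself, such that the operator which
acts on the spaces `H^(p,q)(X i)` as the multiplication by `p - q` is a linear combination
`∑ z j * E j` with complex coefficients. (`smL` is the multiplication by a complex number.)

This operator generates the Lie algebra of the image of the circle group, and for Hodge structures of
CM type the least such number `R` is the dimension of their Hodge group. -/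
def HgDimLe (T : HodgeTheory ops) (X : I → 𝒱.Obj) (R : ℕ) : Prop :=
  ∃ (E : Fin R → ∀ i, EndH T (X i)) (z : Fin R → ℂ),
    ∀ (i : I) (p q : ℤ) (x : HL T.W ℂ (X i)), IsType T.pq p q x →
      ∑ j, smL (z j) (endC (E j i) x) = smL ((p - q : ℤ) : ℂ) x

/-- The morphism `(z, z', p) ↦ (z', z)`. -/
noncomputable def toZZ (Z P : 𝒱.Obj) : Z.prod (Z.prod P) ⟶ Z.prod Z :=
  Obj.lift (snd Z (Z.prod P) ≫ fst Z P) (fst Z (Z.prod P))

/-- The morphism `(z, z', p) ↦ (z, p)`. -/
noncomputable def toZP (Z P : 𝒱.Obj) : Z.prod (Z.prod P) ⟶ Z.prod P :=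
  Obj.lift (fst Z (Z.prod P)) (snd Z (Z.prod P) ≫ snd Z P)

/-- The image of the class `c` on `Z × P`, with complex coefficients, under the correspondence `γ` (on
`Z × Z`) times the diagonal of `P`: the push-forward along `(z, z', p) ↦ (z', p)` of the product of the
pull-backs of `γ` and `c`. -/
noncomputable def comp {T : HodgeTheory ops} {Z P : 𝒱.Obj} (γ : T.W.H (Z.prod Z))
    (c : HL T.W ℂ (Z.prod P)) : HL T.W ℂ (Z.prod P) :=
  pushL (snd Z (Z.prod P)) (mulL (mapL (toZZ Z P) (emL T.W ℂ γ)) (mapL (toZP Z P) c))

/-- The correspondence `γ` is of level at most `ℓ`: it acts as zero on the classes of type `(p, q)` on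
`Z` with `|p - q| > ℓ`, that is, on their pull-backs to the products `Z × P`. -/
def LevelLe {T : HodgeTheory ops} {Z : 𝒱.Obj} (γ : T.W.H (Z.prod Z)) (ℓ : ℕ) : Prop :=
  ∀ (P : 𝒱.Obj) (p q : ℤ) (x : HL T.W ℂ Z), IsType T.pq p q x → (ℓ : ℤ) < |p - q| →
    comp γ (mapL (fst Z P) x) = 0

end Pool.Agent.R936.Sm
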