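import Pool.Agent.R936.Sm.Defs

/-!
# The number of exceptional classes: definitions
-/

universe u

namespace Pool.Agent.R936.Sm

open H914 H914.VarClass H914.VarClass.Obj H914.WeilCohomology Y121.AHS

variable {k : Type u} [Field k] {𝒱 : VarClass k} {ops : CycleOps 𝒱}

/-- All Hodge classes on `Y` correspond to Hodge classes in all conjugate theories in `D`, with respect
to all comparison isomorphisms in `D`. -/
def AllConjHodge {T : HodgeTheory ops} (D : Conjugates T) (Y : 𝒱.Obj) : Prop :=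
  ∀ (j : ℕ) (c : T.W.H Y), IsHodge T Y j c → IsAbsHodge D Y j c

/-- The level of the Hodge structure `H(Z)` is at most `ℓ`: `h^(p,q)(Z) = 0` for `|p - q| > ℓ`. -/
def LevelIsLe (T : HodgeTheory ops) (Z : 𝒱.Obj) (ℓ : ℕ) : Prop :=
  ∀ p q : ℤ, (ℓ : ℤ) < |p - q| → T.pq Z p q = ⊥

/-- The sum of the Betti numbers. -/
noncomputable def totalBetti (T : HodgeTheory ops) (P : 𝒱.Obj) : ℕ :=
  Module.finrank T.W.K (T.W.H P)

end Pool.Agent.R936.Sm
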