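import Pool.Agent.R936.Vh.Ex
import Pool.Agent.R936.Sm.Full
import Pool.Agent.R936.Sm.ExDefs

/-!
# The number of exceptional classes: the theorem
-/

set_option linter.unusedVariables false
set_option linter.unusedSectionVars false

open CategoryTheory AlgebraicGeometry TensorProduct

universe u v w

namespace Pool.Agent.R936.Sm

open Pool.Agent.H914 Pool.Agent.W534 VarClass Obj WeilCohomology Module
open Pool.Agent
open Pool.Agent.Y121 Pool.Agent.Y121.AHS
open Pool.Agent.Y163 (HBasis)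
open Pool.Agent.H281R3.HT
open Pool.Agent.Y133.Half (ClassPred spanCycles_of_algSpan)
open Pool.Agent.W536.RR (cl_mem_algSpan)
open Pool.Agent.R940 (CMB csH csH_smul csH_map csH_em csH_gr csH_inj HSub em_HSub
  cs_ind cs_tmul type_bound deg_eq repr_zero em_SG mem_of_SG pq_top SG SG_ind exists_cycle)
open Pool.Agent.R936
open Pool.Agent.R936.Hel (Cl toZ Lt IsCan isCan_prod' lwf)
open Pool.Agent.R936.Hel2 (BB CC opL pt wt st rank_le HG HodgeGroupDimLe IsFactorBound Few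
  hodge_red algCl clL)
open Pool.Agent.R936.Per (Fix HC KC dual_letter' exists_cmb')
open Pool.Agent.R936.Arb

variable {k : Type u} [Field k] {𝒱 : VarClass k} {ops : CycleOps 𝒱} {I : Type w} {X : I → 𝒱.Obj}

section AH

variable {T : AH.HodgeTheory ops}

theorem exists_uniX [Nonempty I]
    (hpos : ∀ (Y : 𝒱.Obj) (p q : ℤ), p < 0 ∨ q < 0 → T.pq Y p q = ⊥)
    {f : ∀ i, T.W.H (X i) →ₗ[T.W.K] T.W.H (X i)} (hf : ∀ i, Squarefree (LinearMap.charpoly (f i)))
    (hgr : ∀ i, ∀ j, ∀ x ∈ T.W.gr (X i) j, f i x ∈ T.W.gr (X i) j)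
    (hpq : ∀ i, ∀ (p q : ℤ), ∀ x : HC T (X i), x ∈ T.pq (X i) p q →
      opL ℂ (f i) x ∈ T.pq (X i) p q)
    {R : ℕ} {E : Fin R → ∀ i, (T.W.H (X i) →ₗ[T.W.K] T.W.H (X i))} {z : Fin R → ℂ}
    (hE : ∀ (i : I) (p q : ℤ) (x : (baseW T.W ℂ).H (X i)), x ∈ T.pq (X i) p q →
      ∑ j, (show (baseW T.W ℂ).K from z j) • opL ℂ (E j i) x =
        (show (baseW T.W ℂ).K from ((p - q : ℤ) : ℂ)) • x) :
    ∃ (i0 : I) (L0 : List I),
      ∀ (ℓ : ℕ) (Z : 𝒱.Obj), (∀ (p q : ℤ), (ℓ : ℤ) < |p - q| → T.pq Z p q = ⊥) →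
        ∀ (G H : Cl T.W), (∀ i L, HG G (Hel.prodOf X i L)) → (∀ Y, G.C Y ≤ H.C Y) →
          (∀ Y, H.C Y = Submodule.span T.W.K {c | ∃ J, AH.IsHodge T Y J c}) →
          ∀ i Lst, finrank T.W.K (H.C (Z.prod (Hel.prodOf X i Lst))) +
            finrank T.W.K (T.W.H (Hel.prodOf X i Lst)) *
              finrank T.W.K (G.C (Z.prod (Hel.prodOf X i0 (powL L0 i0 ℓ)))) ≤
            finrank T.W.K (G.C (Z.prod (Hel.prodOf X i Lst))) +
              finrank T.W.K (T.W.H (Hel.prodOf X i Lst)) *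
                finrank T.W.K (H.C (Z.prod (Hel.prodOf X i0 (powL L0 i0 ℓ)))) := by
  classical
  obtain ⟨i1⟩ := ‹Nonempty I›
  let L := AlgebraicClosure T.W.K
  have hchar : CharZero L := charZero_of_injective_algebraMap (algebraMap T.W.K L).injective
  let σ₀ : L →ₐ[T.W.K] ℂ := IsAlgClosed.lift
  have hfix : Fix T L := by
    intro x hx
    have h1 := (InfiniteGalois.mem_bot_iff_fixed (k := T.W.K) (K := L) x).2 fun τ => hx τ
    exact IntermediateField.mem_bot.1 h1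
  have hM := fun i : I => exists_cmb' (T := T) (X := X i) (L := L) (f := f i) (hf i) (hgr i)
      (fun p q x hx => hpq i p q x hx) (IsAlgClosed.splits _)
  choose M μ hμ hMμ using hM
  rcases isEmpty_or_nonempty (Σ i, Fin (finrank T.W.K (T.W.H (X i)))) with hem | ⟨⟨l0⟩⟩
  · -- no letters
    have h0 : ∀ (Z : 𝒱.Obj) i Lst (c : T.W.H (Z.prod (Hel.prodOf X i Lst))), c = 0 := by
      intro Z i Lst c
      obtain ⟨g⟩ := exists_pr X Lst i
      have h1 : (1 : T.W.H (X i)) = 0 := by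
        apply AH.em_injective (W := T.W) (L := L)
        have h2 := (M i).B.b.sum_repr (AH.em T.W L 1)
        rw [← h2]
        exact Finset.sum_eq_zero fun a _ => (hem.false ⟨i, a⟩).elim
      have h2 : (1 : T.W.H (Z.prod (Hel.prodOf X i Lst))) = 0 := by
        have h3 := congrArg (T.W.map (snd Z _ ≫ g)) h1
        rwa [map_one, map_zero] at h3
      rw [← mul_one c, h2, mul_zero]
    refine ⟨i1, [], fun ℓ Z _ G H _ hGH _ i Lst => ?_⟩
    have h5 : H.C (Z.prod (Hel.prodOf X i Lst)) = ⊥ :=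
      (Submodule.eq_bot_iff _).2 fun x _ => h0 _ _ _ x
    rw [h5, finrank_bot, zero_add]
    exact le_add_left (Nat.mul_le_mul_left _ (Submodule.finrank_mono (hGH _)))
  -- dual letters
  have hd := fun l : (Σ i, Fin (finrank T.W.K (T.W.H (X i)))) => dual_letter' (M := M) hpos l
  choose st' hst1 hst2 using hd
  have hst : ∀ l, Hel2.wt M (st' l) = - Hel2.wt M l := by
    intro l
    funext σ
    have h1 := hst2 l σ true
    have h2 := hst2 l σ false
    rw [Pi.neg_apply, Hel2.wt, Hel2.wt]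
    omega
  -- letters of degree zero
  have hz : ∀ l : (Σ i, Fin (finrank T.W.K (T.W.H (X i)))), HasZ (Hel2.wt M) l.1 := by
    intro l
    by_contra hcon
    have h1 : ∀ a, (M l.1).B.deg a ≠ 0 := by
      intro a ha
      apply hcon
      refine ⟨a, ?_⟩
      funext σ
      obtain ⟨h1, h2, h3⟩ := deg_eq (M l.1) hpos σ a
      rw [ha, Nat.cast_zero] at h1
      have h4 : pt M σ true ⟨l.1, a⟩ = (M l.1).p σ a := rfl
      have h5 : pt M σ false ⟨l.1, a⟩ = (M l.1).q σ a := rfl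
      rw [Hel2.wt, h4, h5, Pi.zero_apply]
      omega
    have h2 : ∀ a, (M l.1).B.b.repr (1 : (baseW T.W L).H (X l.1)) a = 0 := fun a =>
      repr_zero ((baseW T.W L).isInternal (X l.1)).submodule_iSupIndep (M l.1).B.b
        (fun a => (M l.1).B.deg a) (fun a => (M l.1).B.mem a) ((baseW T.W L).one_mem _) (h1 a)
    have h3 : (1 : (baseW T.W L).H (X l.1)) = 0 := by
      rw [← (M l.1).B.b.sum_repr 1]
      exact Finset.sum_eq_zero fun a _ => by rw [h2, zero_smul]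
    apply (M l.1).B.b.ne_zero l.2
    rw [← mul_one ((M l.1).B.b l.2), h3, mul_zero]
  obtain ⟨L0, hL0⟩ := exists_product (h := Hel2.wt M) (fun s => rank_le M hE s) hst hz l0
  refine ⟨l0.1, L0, fun ℓ Z hlev G H hG hGH hH i Lst => ?_⟩
  exact Vh.ex_arb hpos M hfix σ₀ (fun Rl hRl => hL0 ℓ Rl hRl) hlev
    (fun Rl hRl => algS_of_HG M hfix σ₀ hpos hG hRl) hGH hH i Lst

end AH

variable {T : AHS.HodgeTheory ops}

lemma ex_main' [Nonempty I] (hpos : Sm.NonnegTypes T)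
    (hX : ∀ i, Sm.IsCM T (X i)) {R : ℕ} (hR : HodgeGroupDimLe T X R) (F : I → List I → 𝒱.Obj)
    (hF : F = Hel2.prodOf X) :
    ∃ (i0 : I) (L0 : List I), ∀ D : AHS.Conjugates T,
      (∀ i L, (∃ F : Finset I, F.card ≤ R + 1 ∧ ∀ j ∈ i :: L, j ∈ F) → Sm.AllConjHodge D (F i L)) →
      ∀ (ℓ : ℕ) (Z : 𝒱.Obj), Sm.LevelIsLe T Z ℓ → ∀ (i : I) (L : List I),
        AHS.hodgeDim T (Z.prod (F i L)) + Sm.totalBetti T (F i L) *
            AHS.absDim D (Z.prod (F i0 (L0 ++ (List.replicate (ℓ - 1) (i0 :: L0)).flatten))) ≤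
          AHS.absDim D (Z.prod (F i L)) + Sm.totalBetti T (F i L) *
            AHS.hodgeDim T (Z.prod (F i0 (L0 ++ (List.replicate (ℓ - 1) (i0 :: L0)).flatten))) := by
  subst hF
  have hX0 := fun i => isCM_of (hX i)
  have hR0 := hR
  have hX' := hX0
  choose f hf hgr hpq using hX'
  obtain ⟨E, z, hE⟩ := hR
  obtain ⟨i0, L0, h1⟩ := exists_uniX (T := toH T) (X := X) hpos (f := f) hf hgr hpq
    (R := R) (E := E) (z := z) (fun i p q x hx => hE i p q x hx)
  refine ⟨i0, L0, fun D hD ℓ Z hlev i L => ?_⟩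
  have e0 : Hel2.prodOf X i0 (L0 ++ (List.replicate (ℓ - 1) (i0 :: L0)).flatten) =
      Hel.prodOf X i0 (powL L0 i0 ℓ) := Hel2.prodOf_eq _ _ _
  rw [e0]
  have e1 : Hel2.prodOf X i L = Hel.prodOf X i L := Hel2.prodOf_eq _ _ _
  rw [e1]
  have hA1 : ∀ i L, HodgeAbsolute D (Hel2.prodOf X i L) :=
    pred_red hpos hX0 hR0 (m := ⊤) (Or.inl rfl) (AH.absPred (toD D))
      (fun i L hL j c hc => hD i L hL.1 j c hc)
  have hall : ∀ i L, HG (T := toH T) (predCl (AH.absPred (toD D))) (Hel.prodOf X i L) := by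
    intro i L
    rw [← Hel2.prodOf_eq]
    exact (hg_pred (AH.absPred (toD D)) _).2 (hA1 i L)
  exact h1 ℓ Z hlev (predCl (AH.absPred (toD D))) (predCl (AH.hodgePred (toH T))) hall
    (fun Y => Submodule.span_mono (by
      rintro c ⟨j, hj⟩
      exact ⟨j, hj.1⟩)) (fun Y => rfl) i L

/-- **The number of exceptional classes.** -/
theorem ex_main [Nonempty I] (hpos : Sm.NonnegTypes T)
    (hX : ∀ i, Sm.IsCM T (X i)) {R : ℕ} (hR : Sm.HgDimLe T X R) :
    ∃ (i0 : I) (L0 : List I), ∀ D : AHS.Conjugates T,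
      (∀ i L, (∃ F : Finset I, F.card ≤ R + 1 ∧ ∀ j ∈ i :: L, j ∈ F) →
        Sm.AllConjHodge D (Sm.prodOf X i L)) →
      ∀ (ℓ : ℕ) (Z : 𝒱.Obj), Sm.LevelIsLe T Z ℓ → ∀ (i : I) (L : List I),
        AHS.hodgeDim T (Z.prod (Sm.prodOf X i L)) + Sm.totalBetti T (Sm.prodOf X i L) *
            AHS.absDim D (Z.prod (Sm.powerOf X i0 L0 ℓ)) ≤
          AHS.absDim D (Z.prod (Sm.prodOf X i L)) + Sm.totalBetti T (Sm.prodOf X i L) *
            AHS.hodgeDim T (Z.prod (Sm.powerOf X i0 L0 ℓ)) :=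
  ex_main' hpos hX (show HodgeGroupDimLe T X R from hR) (Sm.prodOf X)
    (funext fun i => funext fun L => Sm.prodOf_eq X i L)

end Pool.Agent.R936.Sm
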